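import Pool.Agent.MP_400b40_lc.Mg.Compute

namespace Pool.Agent.Results.MP_400b40_lc.AboveGL

open Pool.Agent.MP_400b40_lc

/-- There is a decidable normal modal logic extending GL (hence K4 and K) whose interpolant
existence problem is undecidable. -/
theorem result :
    ∃ L : Set Fm, IsNormal L ∧ logicK ⊆ L ∧ logicK4 ⊆ L ∧ logicGL ⊆ L ∧
      IsDecidable L ∧ ¬ IEPDecidable L :=
  ⟨Log (Sel Halt), log_normal _, K_subset _, K4_subset _, GL_subset _,
    log_decidable halt_mono prim_halt, log_iep_undecidable⟩

end Pool.Agent.Results.MP_400b40_lc.AboveGL
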